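import Pool.Agent.Y874.TP2.Pic

/-!
# Walks in pictures: each dart starts a walk or lies on closed curves
-/

set_option autoImplicit false

namespace Pool.Agent.Y948.TP2

open Pool.Agent.Y874.TP2

variable {X K : Type}

theorem oppSymm {q : List X} {a b : X} (h : Opp q a b) : Opp q b a := by
  obtain ⟨x₀, x₁, x₂, x₃, hq, h | h | h | h⟩ := h
  · exact ⟨x₀, x₁, x₂, x₃, hq, Or.inr (Or.inl ⟨h.2, h.1⟩)⟩
  · exact ⟨x₀, x₁, x₂, x₃, hq, Or.inl ⟨h.2, h.1⟩⟩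
  · exact ⟨x₀, x₁, x₂, x₃, hq, Or.inr (Or.inr (Or.inr ⟨h.2, h.1⟩))⟩
  · exact ⟨x₀, x₁, x₂, x₃, hq, Or.inr (Or.inr (Or.inl ⟨h.2, h.1⟩))⟩

theorem oppMem {q : List X} {a b : X} (h : Opp q a b) : a ∈ q := by
  obtain ⟨x₀, x₁, x₂, x₃, hq, h | h | h | h⟩ := h <;> rw [hq, h.1] <;> simp

theorem oppMem2 {q : List X} {a b : X} (h : Opp q a b) : b ∈ q := oppMem (oppSymm h)

theorem oppUnique {q : List X} (hn : q.Nodup) {a b b' : X} (h : Opp q a b) (h' : Opp q a b') :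
    b = b' := by
  obtain ⟨x₀, x₁, x₂, x₃, rfl, h⟩ := h
  obtain ⟨y₀, y₁, y₂, y₃, hq, h'⟩ := h'
  simp only [List.cons.injEq, and_true] at hq
  obtain ⟨rfl, rfl, rfl, rfl⟩ := hq
  simp only [List.nodup_cons, List.mem_cons, List.not_mem_nil, or_false, not_or] at hn
  obtain ⟨⟨h01, h02, h03⟩, ⟨h12, h13⟩, h23, -⟩ := hn
  rcases h with ⟨ha, hb⟩ | ⟨ha, hb⟩ | ⟨ha, hb⟩ | ⟨ha, hb⟩ <;>
  rcases h' with ⟨ha', hb'⟩ | ⟨ha', hb'⟩ | ⟨ha', hb'⟩ | ⟨ha', hb'⟩ <;>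
  first
    | exact hb.trans hb'.symm
    | exact absurd (ha.symm.trans ha') (by assumption)
    | exact absurd (ha'.symm.trans ha) (by assumption)

variable {P : Pic X K}

theorem nodQ (hP : P.Good) : P.Q.flatten.Nodup := (List.nodup_append.1 hP.nd).2.1

theorem disjBQ (hP : P.Good) {x : X} (h : x ∈ P.Q.flatten) : x ∉ P.B.flatten := fun h' =>
  (List.nodup_append.1 hP.nd).2.2 x h' x h rfl

theorem word_unique (hP : P.Good) {q q' : List X} (hq : q ∈ P.Q) (hq' : q' ∈ P.Q) {a : X}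
    (h : a ∈ q) (h' : a ∈ q') : q = q' := by
  by_contra hne
  have h1 := (List.nodup_flatten.1 (nodQ hP)).2
  have hs : Std.Symm (List.Disjoint (α := X)) := ⟨fun _ _ h => h.symm⟩
  have h2 : q.Disjoint q' := List.Pairwise.forall h1 hq hq' hne
  exact h2 h h'

theorem opp_unique (hP : P.Good) {q q' : List X} (hq : q ∈ P.Q) (hq' : q' ∈ P.Q) {a b b' : X}
    (h : Opp q a b) (h' : Opp q' a b') : b = b' := by
  have h1 := word_unique hP hq hq' (oppMem h) (oppMem h')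
  subst h1
  exact oppUnique ((List.nodup_flatten.1 (nodQ hP)).1 q hq) h h'

theorem mem_flatQ {q : List X} (hq : q ∈ P.Q) {a : X} (h : a ∈ q) : a ∈ P.Q.flatten :=
  List.mem_flatten.2 ⟨q, hq, h⟩

theorem exists_opp (hP : P.Good) {q : List X} (hq : q ∈ P.Q) {a : X} (h : a ∈ q) :
    ∃ b, Opp q a b := by
  obtain ⟨x₀, x₁, x₂, x₃, hx, -⟩ := hP.four q hq
  rw [hx] at h
  simp only [List.mem_cons, List.not_mem_nil, or_false] at h
  rcases h with h | h | h | h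
  · exact ⟨x₂, x₀, x₁, x₂, x₃, hx, Or.inl ⟨h, rfl⟩⟩
  · exact ⟨x₃, x₀, x₁, x₂, x₃, hx, Or.inr (Or.inr (Or.inl ⟨h, rfl⟩))⟩
  · exact ⟨x₀, x₀, x₁, x₂, x₃, hx, Or.inr (Or.inl ⟨h, rfl⟩)⟩
  · exact ⟨x₁, x₀, x₁, x₂, x₃, hx, Or.inr (Or.inr (Or.inr ⟨h, rfl⟩))⟩

theorem opp_color (hP : P.Good) {q : List X} (hq : q ∈ P.Q) {a b : X} (h : Opp q a b) :
    P.κ b = P.κ a := by
  obtain ⟨x₀, x₁, x₂, x₃, hx, -, -, h02, h13, -⟩ := hP.four q hq
  obtain ⟨y₀, y₁, y₂, y₃, hy, h⟩ := h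
  rw [hx] at hy
  simp only [List.cons.injEq, and_true] at hy
  obtain ⟨rfl, rfl, rfl, rfl⟩ := hy
  rcases h with ⟨ha, hb⟩ | ⟨ha, hb⟩ | ⟨ha, hb⟩ | ⟨ha, hb⟩
  · rw [ha, hb, h02]
  · rw [ha, hb, h02]
  · rw [ha, hb, h13]
  · rw [ha, hb, h13]

/-- the darts from which no walk starts -/
def Z0 (P : Pic X K) : Set X := {d | P.dart d ∧ ¬ ∃ L z, P.Walk d L z}

theorem Z0_finite (P : Pic X K) : (Z0 P).Finite := by
  refine (List.finite_toSet (P.B.flatten ++ P.Q.flatten)).subset fun d hd => ?_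
  show d ∈ P.B.flatten ++ P.Q.flatten
  rw [List.mem_append]
  exact hd.1

theorem Z0_bd {d : X} (hd : d ∈ Z0 P) : P.σ d ∉ P.B.flatten := fun h =>
  hd.2 ⟨_, _, Pic.Walk.done d h⟩

theorem Z0_next (hP : P.Good) {d : X} (hd : d ∈ Z0 P) :
    ∃ e, e ∈ Z0 P ∧ ∃ q ∈ P.Q, Opp q (P.σ d) e := by
  have h1 : P.σ d ∈ P.Q.flatten := (hP.dartσ d hd.1).resolve_left (Z0_bd hd)
  obtain ⟨q, hq, hdq⟩ := List.mem_flatten.1 h1
  obtain ⟨e, he⟩ := exists_opp hP hq hdq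
  refine ⟨e, ⟨Or.inr (mem_flatQ hq (oppMem2 he)), ?_⟩, q, hq, he⟩
  rintro ⟨L, z, hw⟩
  exact hd.2 ⟨_, _, Pic.Walk.step d e z q L hq he hw⟩

theorem Z0_prev (hP : P.Good) {e : X} (he : e ∈ Z0 P) :
    ∃ d, d ∈ Z0 P ∧ ∃ q ∈ P.Q, Opp q (P.σ d) e := by
  classical
  have hfin : Finite (Z0 P) := (Z0_finite P).to_subtype
  choose f hf1 hf2 using fun d : Z0 P => Z0_next hP d.2
  let φ : Z0 P → Z0 P := fun d => ⟨f d, hf1 d⟩
  have hinj : Function.Injective φ := by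
    intro d d' hdd
    have h1 : f d = f d' := congrArg Subtype.val hdd
    obtain ⟨q, hq, ho⟩ := hf2 d
    obtain ⟨q', hq', ho'⟩ := hf2 d'
    rw [h1] at ho
    have h2 := opp_unique hP hq hq' (oppSymm ho) (oppSymm ho')
    apply Subtype.ext
    rw [← hP.invσ d.1 d.2.1, ← hP.invσ d'.1 d'.2.1, h2]
  obtain ⟨d, hd⟩ := (Finite.injective_iff_surjective.1 hinj) ⟨e, he⟩
  refine ⟨d.1, d.2, ?_⟩
  have h3 : f d = e := congrArg Subtype.val hd
  rw [← h3]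
  exact hf2 d

/-- WALK-1: each dart starts a walk or lies on closed curves -/
theorem w1 : S_W1 := by
  intro X K P hP x hx
  by_cases hw : ∃ L z, P.Walk x L z
  · exact Or.inl hw
  · right
    have hxZ : x ∈ Z0 P := ⟨hx, hw⟩
    refine ⟨{d | (d ∈ Z0 P ∨ (P.dart d ∧ P.σ d ∈ Z0 P)) ∧ P.κ d = P.κ x}, ⟨?_, ?_, ?_⟩,
      ⟨Or.inl hxZ, rfl⟩, fun d hd => hd.2, ?_⟩
    · rintro d ⟨hd | hd, -⟩
      · exact hd.1
      · exact hd.1
    · rintro d ⟨hd, hk⟩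
      have hdd : P.dart d := by
        rcases hd with hd | hd
        · exact hd.1
        · exact hd.1
      refine ⟨?_, (hP.κσ d hdd).trans hk⟩
      rcases hd with hd | hd
      · right
        refine ⟨hP.dartσ d hdd, ?_⟩
        rw [hP.invσ d hdd]
        exact hd
      · exact Or.inl hd.2
    · rintro q hq d e ho ⟨hd, hk⟩
      refine ⟨?_, (opp_color hP hq ho).trans hk⟩
      rcases hd with hd | ⟨hdd, hd⟩
      · obtain ⟨d', hd', q', hq', ho'⟩ := Z0_prev hP hd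
        have h1 := opp_unique hP hq hq' ho (oppSymm ho')
        right
        refine ⟨Or.inr (mem_flatQ hq (oppMem2 ho)), ?_⟩
        rw [h1, hP.invσ d' hd'.1]
        exact hd'
      · obtain ⟨e', he', q', hq', ho'⟩ := Z0_next hP hd
        rw [hP.invσ d hdd] at ho'
        left
        rw [opp_unique hP hq hq' ho ho']
        exact he'
    · rintro d ⟨hd | ⟨hdd, hd⟩, -⟩
      · obtain ⟨d', hd', q', hq', ho'⟩ := Z0_prev hP hd
        exact disjBQ hP (mem_flatQ hq' (oppMem2 ho'))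
      · have h1 := Z0_bd hd
        rwa [hP.invσ d hdd] at h1

end Pool.Agent.Y948.TP2
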